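import Mathlib
import Pool.Agent.H7.Rec

set_option autoImplicit false

namespace Pool.Agent.Results.MP_66fa61_co.NotRational
open Finset

/-- the cells with lower-left corners `a`, `b` share an edge -/
def Adj (a b : ℤ × ℤ) : Prop := |a.1 - b.1| + |a.2 - b.2| = 1

/-- a nonempty edge-connected finite set of cells -/
def Conn (S : Finset (ℤ × ℤ)) : Prop :=
  S.Nonempty ∧ ∀ p ∈ S, ∀ q ∈ S, Relation.ReflTransGen (fun a b => a ∈ S ∧ b ∈ S ∧ Adj a b) p q

/-- translate -/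
def tr (S : Finset (ℤ × ℤ)) (v : ℤ × ℤ) : Finset (ℤ × ℤ) := S.image (· + v)

/-- number of translation classes of `n`-ominoes -/
noncomputable def t (n : ℕ) : ℕ :=
  {C : Set (Finset (ℤ × ℤ)) | ∃ S, S.card = n ∧ Conn S ∧ C = {S' | ∃ v, S' = tr S v}}.ncard

theorem adj_iff (a b : ℤ × ℤ) : Adj a b ↔ (a.1 = b.1 ∧ (a.2 = b.2 + 1 ∨ b.2 = a.2 + 1)) ∨
    (a.2 = b.2 ∧ (a.1 = b.1 + 1 ∨ b.1 = a.1 + 1)) := by
  unfold Adj
  rcases abs_cases (a.1 - b.1) with h | h <;> rcases abs_cases (a.2 - b.2) with h' | h' <;> omega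

theorem mem_tr (S : Finset (ℤ × ℤ)) (v p : ℤ × ℤ) : p ∈ tr S v ↔ p - v ∈ S := by
  simp only [tr, mem_image]
  exact ⟨fun ⟨a, h, e⟩ => by rw [← e]; simpa using h, fun h => ⟨_, h, by simp⟩⟩

theorem tr_tr (S : Finset (ℤ × ℤ)) (v w : ℤ × ℤ) : tr (tr S v) w = tr S (v + w) := by
  ext p; simp only [mem_tr]; rw [sub_sub, add_comm]

theorem tr_zero (S : Finset (ℤ × ℤ)) : tr S 0 = S := by ext p; simp [mem_tr]

theorem card_tr (S : Finset (ℤ × ℤ)) (v : ℤ × ℤ) : (tr S v).card = S.card :=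
  card_image_of_injective _ (add_left_injective v)

theorem conn_map (S : Finset (ℤ × ℤ)) (f : ℤ × ℤ → ℤ × ℤ) (hf : ∀ a b, Adj a b → Adj (f a) (f b))
    (h : Conn S) : Conn (S.image f) := by
  refine ⟨h.1.image _, fun p hp q hq => ?_⟩
  obtain ⟨p, hp', rfl⟩ := mem_image.1 hp
  obtain ⟨q, hq', rfl⟩ := mem_image.1 hq
  have := h.2 p hp' q hq'
  clear hq hq'
  induction this with
  | refl => exact .refl
  | tail _ c ih => exact ih.tail ⟨mem_image_of_mem _ c.1, mem_image_of_mem _ c.2.1, hf _ _ c.2.2⟩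

theorem adj_tr (a b v : ℤ × ℤ) : Adj (a + v) (b + v) ↔ Adj a b := by simp [Adj]

theorem conn_tr (S : Finset (ℤ × ℤ)) (v : ℤ × ℤ) (h : Conn S) : Conn (tr S v) :=
  conn_map S _ (fun a b c => (adj_tr a b v).2 c) h

def Norm (S : Finset (ℤ × ℤ)) : Prop :=
  (∀ p ∈ S, 0 ≤ p.1 ∧ 0 ≤ p.2) ∧ (∃ p ∈ S, p.1 = 0) ∧ ∃ p ∈ S, p.2 = 0

theorem norm_uniq (S T : Finset (ℤ × ℤ)) (v : ℤ × ℤ) (hS : Norm S) (hT : Norm T)
    (h : T = tr S v) : v = 0 := by
  obtain ⟨a, ⟨p, p1, p2⟩, q, q1, q2⟩ := hS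
  obtain ⟨b, ⟨p', p1', p2'⟩, q', q1', q2'⟩ := hT
  subst h
  have c1 := (b (p + v) (by simpa [mem_tr] using p1)).1
  have c2 := (b (q + v) (by simpa [mem_tr] using q1)).2
  have c3 := (a _ ((mem_tr _ _ _).1 p1')).1
  have c4 := (a _ ((mem_tr _ _ _).1 q1')).2
  simp only [Prod.fst_add, Prod.snd_add, Prod.fst_sub, Prod.snd_sub] at *
  ext <;> simp <;> omega

theorem norm_ex (S : Finset (ℤ × ℤ)) (h : S.Nonempty) : ∃ v, Norm (tr S v) := by
  obtain ⟨p, p1, p2⟩ := exists_min_image S Prod.fst h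
  obtain ⟨q, q1, q2⟩ := exists_min_image S Prod.snd h
  refine ⟨(-p.1, -q.2), fun r hr => ?_, ⟨p + (-p.1, -q.2), by simpa [mem_tr] using p1, by simp⟩,
    q + (-p.1, -q.2), by simpa [mem_tr] using q1, by simp⟩
  rw [mem_tr] at hr
  have := p2 _ hr
  have := q2 _ hr
  simp at *
  omega

theorem ivt (S : Finset (ℤ × ℤ)) (h : Conn S) (f : ℤ × ℤ → ℤ)
    (hf : ∀ a b, Adj a b → f b ≤ f a + 1) (p q : ℤ × ℤ) (hp : p ∈ S) (hq : q ∈ S) (y : ℤ)
    (h1 : f p ≤ y) (h2 : y ≤ f q) : ∃ r ∈ S, f r = y := by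
  have := h.2 p hp q hq
  clear hq
  induction this with
  | refl => exact ⟨p, hp, by omega⟩
  | @tail b c _ a ih =>
    by_cases z : y ≤ f b
    · exact ih z
    · have := hf _ _ a.2.2
      exact ⟨c, a.2.1, by omega⟩

theorem lip1 (a b : ℤ × ℤ) (h : Adj a b) : b.1 ≤ a.1 + 1 := by rw [adj_iff] at h; omega
theorem lip2 (a b : ℤ × ℤ) (h : Adj a b) : b.2 ≤ a.2 + 1 := by rw [adj_iff] at h; omega

def N (n : ℕ) : Set (Finset (ℤ × ℤ)) := {S | S.card = n ∧ Conn S ∧ Norm S}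

theorem bnd (S : Finset (ℤ × ℤ)) (h : Conn S) (f : ℤ × ℤ → ℤ)
    (hf : ∀ a b, Adj a b → f b ≤ f a + 1) (h0 : ∃ p ∈ S, f p = 0) (q : ℤ × ℤ) (hq : q ∈ S) :
    f q ≤ S.card := by
  obtain ⟨p, hp, p0⟩ := h0
  have : Icc 0 (f q) ⊆ S.image f := fun y hy => by
    rw [mem_Icc] at hy
    exact mem_image.2 (ivt S h f hf p q hp hq y (by omega) hy.2)
  have := (card_le_card this).trans card_image_le
  rw [Int.card_Icc] at this
  omega

theorem N_fin (n : ℕ) : (N n).Finite := by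
  refine (finite_toSet (Icc (0 : ℤ) n ×ˢ Icc (0 : ℤ) n).powerset).subset ?_
  rintro S ⟨rfl, h, h1, h2, h3⟩
  refine mem_coe.2 (mem_powerset.2 fun q hq => ?_)
  simp only [mem_product, mem_Icc]
  exact ⟨⟨(h1 q hq).1, bnd S h _ lip1 h2 q hq⟩, (h1 q hq).2, bnd S h _ lip2 h3 q hq⟩

def cls (S : Finset (ℤ × ℤ)) : Set (Finset (ℤ × ℤ)) := {S' | ∃ v, S' = tr S v}

theorem cls_tr (S : Finset (ℤ × ℤ)) (v : ℤ × ℤ) : cls (tr S v) = cls S := by
  ext T
  simp only [cls, Set.mem_ofPred_eq, tr_tr]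
  exact ⟨fun ⟨w, h⟩ => ⟨_, h⟩, fun ⟨w, h⟩ => ⟨w - v, by rw [h]; simp⟩⟩

theorem cls_eq (S T : Finset (ℤ × ℤ)) (h : cls S = cls T) : ∃ v, T = tr S v := by
  have : T ∈ cls T := ⟨0, (tr_zero T).symm⟩
  rw [← h] at this
  exact this

theorem cls_N (n : ℕ) : {C : Set (Finset (ℤ × ℤ)) | ∃ S, S.card = n ∧ Conn S ∧
    C = {S' | ∃ v, S' = tr S v}} = cls '' N n := by
  ext C
  constructor
  · rintro ⟨S, h1, h2, rfl⟩
    obtain ⟨v, hv⟩ := norm_ex S h2.1
    exact ⟨tr S v, ⟨by rw [card_tr, h1], conn_tr S v h2, hv⟩, cls_tr S v⟩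
  · rintro ⟨S, ⟨h1, h2, -⟩, rfl⟩
    exact ⟨S, h1, h2, rfl⟩

theorem t_eq (n : ℕ) : t n = (N n).ncard := by
  rw [t, cls_N]
  refine Set.InjOn.ncard_image fun S hS T hT h => ?_
  obtain ⟨v, hv⟩ := cls_eq S T h
  rw [hv, norm_uniq S T v hS.2.2 hT.2.2 hv, tr_zero]

theorem conn_join (X Y : Finset (ℤ × ℤ)) (hX : Conn X) (hY : Conn Y) (a b : ℤ × ℤ) (ha : a ∈ X)
    (hb : b ∈ Y) (h : Adj a b) : Conn (X ∪ Y) := by
  have h' : Adj b a := by rw [adj_iff] at *; omega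
  have l : ∀ p ∈ X, ∀ q ∈ X, Relation.ReflTransGen
      (fun a b => a ∈ X ∪ Y ∧ b ∈ X ∪ Y ∧ Adj a b) p q := fun p hp q hq =>
    Relation.ReflTransGen.mono (r := fun a b => a ∈ X ∧ b ∈ X ∧ Adj a b)
      (fun _ _ c => ⟨mem_union_left _ c.1, mem_union_left _ c.2.1, c.2.2⟩) _ _ (hX.2 p hp q hq)
  have r : ∀ p ∈ Y, ∀ q ∈ Y, Relation.ReflTransGen
      (fun a b => a ∈ X ∪ Y ∧ b ∈ X ∪ Y ∧ Adj a b) p q := fun p hp q hq =>
    Relation.ReflTransGen.mono (r := fun a b => a ∈ Y ∧ b ∈ Y ∧ Adj a b)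
      (fun _ _ c => ⟨mem_union_right _ c.1, mem_union_right _ c.2.1, c.2.2⟩) _ _ (hY.2 p hp q hq)
  refine ⟨hX.1.mono subset_union_left, fun p hp q hq => ?_⟩
  rcases mem_union.1 hp with hp | hp <;> rcases mem_union.1 hq with hq | hq
  · exact l p hp q hq
  · exact ((l p hp a ha).tail ⟨mem_union_left _ ha, mem_union_right _ hb, h⟩).trans (r b hb q hq)
  · exact ((r p hp b hb).tail ⟨mem_union_right _ hb, mem_union_left _ ha, h'⟩).trans (l a ha q hq)
  · exact r p hp q hq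

theorem conn_single (c : ℤ × ℤ) : Conn {c} :=
  ⟨by simp, fun p hp q hq => by rw [mem_singleton.1 hp, mem_singleton.1 hq]⟩

theorem t_pos (n : ℕ) : 1 ≤ t (n + 1) := by
  have : ∀ n : ℕ, Conn ((range (n + 1)).image fun i : ℕ => ((i : ℤ), (0 : ℤ))) := by
    intro n
    induction n with
    | zero => simpa using conn_single _
    | succ n ih =>
      rw [range_add_one, image_insert, insert_eq]
      exact conn_join _ _ (conn_single _) ih _ ((n : ℤ), 0) (mem_singleton_self _)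
        (mem_image.2 ⟨n, by simp, rfl⟩) (by simp [Adj])
  rw [t, Nat.succ_le_iff, cls_N, Set.ncard_pos ((N_fin _).image _), ← cls_N]
  refine ⟨_, _, ?_, this n, rfl⟩
  rw [card_image_of_injective _ fun a b h => by simpa using h, card_range]

/-- `X` and `Y` are joined through the cell `c` -/
structure D (n : ℕ) (c : ℤ × ℤ) (X Y : Finset (ℤ × ℤ)) : Prop where
  cX : X.card = n
  cY : Y.card = n
  kX : Conn X
  kY : Conn Y
  sep : ∀ a ∈ X, ∀ b ∈ Y, a ≠ b ∧ ¬ Adj a b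
  aX : c - (1, 0) ∈ X
  aY : ∃ b ∈ Y, Adj c b

theorem adjc (c : ℤ × ℤ) : Adj (c - (1, 0)) c := by simp [Adj]

theorem D.nX {n : ℕ} {c : ℤ × ℤ} {X Y : Finset (ℤ × ℤ)} (h : D n c X Y) : c ∉ X := fun z => by
  obtain ⟨b, b1, b2⟩ := h.aY
  exact (h.sep c z b b1).2 b2

theorem D.nY {n : ℕ} {c : ℤ × ℤ} {X Y : Finset (ℤ × ℤ)} (h : D n c X Y) : c ∉ Y := fun z =>
  (h.sep _ h.aX c z).2 (adjc c)

theorem side (X Y Z : Finset (ℤ × ℤ)) (sep : ∀ a ∈ X, ∀ b ∈ Y, a ≠ b ∧ ¬ Adj a b) (hZ : Conn Z)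
    (h : Z ⊆ X ∪ Y) (p : ℤ × ℤ) (hp : p ∈ Z) (hX : p ∈ X) : Z ⊆ X := by
  intro q hq
  have := hZ.2 p hp q hq
  clear hq
  induction this with
  | refl => exact hX
  | tail _ a ih => exact (mem_union.1 (h a.2.1)).resolve_right fun z => (sep _ ih _ z).2 a.2.2

theorem small (n : ℕ) (c : ℤ × ℤ) (X Y Z : Finset (ℤ × ℤ)) (h : D n c X Y) (hZ : Conn Z)
    (s : Z ⊆ insert c (X ∪ Y)) (hc : c ∉ Z) : Z.card ≤ n := by
  have s' : Z ⊆ X ∪ Y := fun p hp => (mem_insert.1 (s hp)).resolve_left fun z => hc (z ▸ hp)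
  obtain ⟨p, hp⟩ := hZ.1
  rcases mem_union.1 (s' hp) with z | z
  · exact h.cX ▸ card_le_card (side X Y Z h.sep hZ s' p hp z)
  · refine h.cY ▸ card_le_card (side Y X Z (fun a ha b hb => ⟨(h.sep b hb a ha).1.symm, fun w =>
      (h.sep b hb a ha).2 ?_⟩) hZ (by rwa [union_comm]) p hp z)
    rw [adj_iff] at *; omega

theorem D_uniq (n : ℕ) (c c' : ℤ × ℤ) (X Y X' Y' : Finset (ℤ × ℤ)) (h : D n c X Y)
    (h' : D n c' X' Y') (e : insert c (X ∪ Y) = insert c' (X' ∪ Y')) : X = X' ∧ Y = Y' := by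
  have ec : c = c' := by
    by_contra z
    have : c' ∈ insert c (X ∪ Y) := e ▸ mem_insert_self _ _
    rcases mem_union.1 ((mem_insert.1 this).resolve_left (Ne.symm z)) with w | w
    · obtain ⟨b, b1, b2⟩ := h.aY
      have k := conn_join _ _ (conn_single c) h.kY c b (mem_singleton_self _) b1 b2
      have := small n c' X' Y' _ h' k (by rw [← e]; intro p; simp; tauto) (by
        simp only [mem_union, mem_singleton, not_or]
        exact ⟨Ne.symm z, fun u => (h.sep _ w _ u).1 rfl⟩)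
      rw [← insert_eq, card_insert_of_notMem h.nY, h.cY] at this
      omega
    · have k := conn_join _ _ h.kX (conn_single c) _ c h.aX (mem_singleton_self _) (adjc c)
      have := small n c' X' Y' _ h' k (by rw [← e]; intro p; simp; tauto) (by
        simp only [mem_union, mem_singleton, not_or]
        exact ⟨fun u => (h.sep _ u _ w).1 rfl, Ne.symm z⟩)
      rw [union_comm, ← insert_eq, card_insert_of_notMem h.nX, h.cX] at this
      omega
  subst ec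
  have e' : X ∪ Y = X' ∪ Y' := by
    have : (insert c (X ∪ Y)).erase c = (insert c (X' ∪ Y')).erase c := by rw [e]
    rwa [erase_insert (by simp [h.nX, h.nY]), erase_insert (by simp [h'.nX, h'.nY])] at this
  have eX : X = X' := eq_of_subset_of_card_le
    (side X' Y' X h'.sep h.kX (e' ▸ subset_union_left) _ h.aX h'.aX) (by rw [h.cX, h'.cX])
  subst eX
  refine ⟨rfl, eq_of_subset_of_card_le (fun p hp => ?_) (by rw [h.cY, h'.cY])⟩
  have : p ∈ X ∪ Y' := e' ▸ mem_union_right _ hp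
  exact (mem_union.1 this).resolve_left fun z => (h.sep _ z _ hp).1 rfl

theorem D_tr (n : ℕ) (c v : ℤ × ℤ) (X Y : Finset (ℤ × ℤ)) (h : D n c X Y) :
    D n (c + v) (tr X v) (tr Y v) := by
  refine ⟨by rw [card_tr, h.cX], by rw [card_tr, h.cY], conn_tr _ _ h.kX, conn_tr _ _ h.kY,
    fun a ha b hb => ?_, ?_, ?_⟩
  · rw [mem_tr] at ha hb
    have := h.sep _ ha _ hb
    refine ⟨fun z => this.1 (by rw [z]), fun z => this.2 ?_⟩
    rw [← adj_tr _ _ v]
    simpa using z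
  · rw [mem_tr]
    have := h.aX
    convert this using 1
    abel
  · obtain ⟨b, b1, b2⟩ := h.aY
    exact ⟨b + v, by simpa [mem_tr] using b1, (adj_tr _ _ _).2 b2⟩

theorem D_ex (n : ℕ) (A B : Finset (ℤ × ℤ)) (hA : A ∈ N n) (hB : B ∈ N n) (j : ℤ)
    (hj : ∃ p ∈ A, p.2 = j) : ∃ s c, D n c A (tr B (s, j)) := by
  obtain ⟨p, p1, p2⟩ := hj
  obtain ⟨q, q1, q2⟩ := hB.2.2.2.2
  obtain ⟨s, ⟨a, a1, b, b1, ab⟩, hs⟩ := Int.exists_greatest_of_bdd
    (P := fun s => ∃ a ∈ A, ∃ b ∈ B, a = b + (s, j) ∨ Adj a (b + (s, j)))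
    ⟨n + 1, by
      rintro s ⟨a, a1, b, b1, ab⟩
      have c1 := bnd A hA.2.1 _ lip1 hA.2.2.2.1 a a1
      have c2 := (hB.2.2.1 b b1).1
      rw [hA.1] at c1
      rw [adj_iff, Prod.ext_iff] at ab
      simp only [Prod.fst_add, Prod.snd_add] at ab
      omega⟩
    ⟨p.1 - q.1, p, p1, q, q1, Or.inl (by ext <;> simp [p2, q2])⟩
  have sep : ∀ a ∈ A, ∀ b ∈ tr B (s + 1, j), a ≠ b ∧ ¬ Adj a b := by
    intro a ha b hb
    rw [mem_tr] at hb
    rw [← not_or]
    intro z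
    have := hs (s + 1) ⟨a, ha, _, hb, by simpa using z⟩
    omega
  have hb : b + (s + 1, j) ∈ tr B (s + 1, j) := by simpa [mem_tr] using b1
  refine ⟨s + 1, a + (1, 0), hA.1, by rw [card_tr, hB.1], hA.2.1, conn_tr _ _ hB.2.1, sep,
    by simpa using a1, _, hb, ?_⟩
  have := sep a a1 _ hb
  rw [adj_iff, Ne, Prod.ext_iff] at *
  simp only [Prod.fst_add, Prod.snd_add] at *
  omega

theorem doubling (n k : ℕ) (hk : k * k ≤ n) : k * t n ^ 2 ≤ 2 * t (2 * n + 1) := by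
  classical
  rcases Nat.eq_zero_or_pos k with rfl | k0
  · simp
  set F := (N_fin n).toFinset with hF
  have mF : ∀ S, S ∈ F ↔ S ∈ N n := fun S => Set.Finite.mem_toFinset _
  have cF : t n = F.card := by rw [t_eq, Set.ncard_eq_toFinset_card _ (N_fin n)]
  set T := F.filter fun A => ∃ p ∈ A, (k : ℤ) ≤ p.2 + 1 with hT
  have h1 : F.card ≤ 2 * T.card := by
    have : F ⊆ T ∪ T.image fun A => A.image Prod.swap := by
      intro A hA
      have hA' := (mF A).1 hA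
      by_cases z : ∃ p ∈ A, (k : ℤ) ≤ p.2 + 1
      · exact mem_union_left _ (mem_filter.2 ⟨hA, z⟩)
      refine mem_union_right _ (mem_image.2 ⟨A.image Prod.swap, mem_filter.2 ⟨(mF _).2 ⟨?_, ?_, ?_⟩,
        ?_⟩, by simp [image_image]⟩)
      · rw [card_image_of_injective _ Prod.swap_injective, hA'.1]
      · exact conn_map A _ (fun a b c => by rw [adj_iff] at *; simp; omega) hA'.2.1
      · obtain ⟨a, ⟨p, p1, p2⟩, q, q1, q2⟩ := hA'.2.2
        refine ⟨fun r hr => ?_, ⟨_, mem_image_of_mem _ q1, q2⟩, _, mem_image_of_mem _ p1, p2⟩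
        obtain ⟨r, hr', rfl⟩ := mem_image.1 hr
        exact (a r hr').symm
      · by_contra w
        push Not at z w
        have : A ⊆ Ico (0 : ℤ) (k - 1) ×ˢ Ico (0 : ℤ) (k - 1) := fun p hp => by
          have := z p hp
          have := w _ (mem_image_of_mem _ hp)
          have := hA'.2.2.1 p hp
          simp only [mem_product, mem_Ico, Prod.snd_swap] at *
          omega
        have := card_le_card this
        rw [card_product, Int.card_Ico, hA'.1] at this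
        obtain ⟨m, rfl⟩ := Nat.exists_eq_succ_of_ne_zero k0.ne'
        simp at this
        nlinarith
    have := (card_le_card this).trans ((card_union_le _ _).trans
      (Nat.add_le_add_left card_image_le _))
    omega
  have ex : ∀ x : Finset (ℤ × ℤ) × Finset (ℤ × ℤ) × ℕ, x ∈ T ×ˢ F ×ˢ range k →
      ∃ y : ℤ × (ℤ × ℤ), D n y.2 x.1 (tr x.2.1 (y.1, x.2.2)) := by
    rintro ⟨A, B, j⟩ hx
    simp only [mem_product, mem_range] at hx
    obtain ⟨hA, p, p1, p2⟩ := mem_filter.1 hx.1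
    have hA' := (mF A).1 hA
    obtain ⟨q, q1, q2⟩ := hA'.2.2.2.2
    obtain ⟨s, c, h⟩ := D_ex n A B hA' ((mF B).1 hx.2.1) j
      (ivt A hA'.2.1 _ lip2 q p q1 p1 j (by omega) (by omega))
    exact ⟨(s, c), h⟩
  choose! y hy using ex
  have h2 : (T ×ˢ F ×ˢ range k).card ≤ t (2 * n + 1) := by
    rw [t, ← Set.ncard_coe_finset]
    refine Set.ncard_le_ncard_of_injOn
      (fun x => cls (insert (y x).2 (x.1 ∪ tr x.2.1 ((y x).1, x.2.2)))) (fun x hx => ?_)
      (fun x hx x' hx' e => ?_) (by rw [cls_N]; exact (N_fin _).image _)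
    · have d := hy x hx
      refine ⟨_, ?_, ?_, rfl⟩
      · rw [card_insert_of_notMem (by simp [d.nX, d.nY]), card_union_of_disjoint
          (disjoint_left.2 fun a ha hb => (d.sep a ha a hb).1 rfl), d.cX, d.cY]
        ring
      · obtain ⟨b, b1, b2⟩ := d.aY
        rw [insert_eq, ← union_assoc, union_comm {_}]
        exact conn_join _ _ (conn_join _ _ d.kX (conn_single _) _ _ d.aX (mem_singleton_self _)
          (adjc _)) d.kY _ b (by simp) b1 b2
    · obtain ⟨v, hv⟩ := cls_eq _ _ e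
      have d := D_tr n _ v _ _ (hy x hx)
      have d' := hy x' hx'
      obtain ⟨e1, e2⟩ := D_uniq n _ _ _ _ _ _ d' d (by
        rw [hv]; simp only [tr, image_insert, image_union])
      obtain ⟨A, B, j⟩ := x
      obtain ⟨A', B', j'⟩ := x'
      simp only [coe_product, Set.mem_prod, mem_coe] at hx hx'
      simp only at e1 e2
      have v0 := norm_uniq A A' v ((mF A).1 (mem_filter.1 hx.1).1).2.2
        ((mF A').1 (mem_filter.1 hx'.1).1).2.2 e1
      rw [v0, tr_zero] at e1 e2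
      have e3 := congrArg (fun S => tr S (-((y (A', B', j')).1, (j' : ℤ)))) e2
      simp only [tr_tr, add_neg_cancel, tr_zero] at e3
      have w0 := norm_uniq B B' _ ((mF B).1 hx.2.1).2.2 ((mF B').1 hx'.2.1).2.2 e3
      rw [w0, tr_zero] at e3
      have := congrArg Prod.snd w0
      simp only [Prod.snd_add, Prod.snd_neg, Prod.snd_zero] at this
      rw [e1, e3, show j = j' by omega]
  rw [card_product, card_product, card_range] at h2
  rw [cF]
  nlinarith [Nat.mul_le_mul_right (F.card * k) h1]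

theorem result : ¬ ∃ P Q : Polynomial ℚ, Q ≠ 0 ∧
    (Q : PowerSeries ℚ) * PowerSeries.mk (fun n => (t n : ℚ)) = (P : PowerSeries ℚ) := by
  rintro ⟨P, Q, hQ, h⟩
  refine H7.Rec.not_rat t t_pos doubling (P.map (algebraMap ℚ ℂ)) (Q.map (algebraMap ℚ ℂ))
    (Polynomial.map_ne_zero hQ) ?_
  have := congrArg (PowerSeries.map (algebraMap ℚ ℂ)) h
  rw [map_mul, ← Polynomial.polynomial_map_coe, ← Polynomial.polynomial_map_coe] at this
  rw [← this]
  congr 1

end Pool.Agent.Results.MP_66fa61_co.NotRational
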